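import Mathlib
import Pool.Agent.Lib.MP_ccf8bc_lc.NM.Main
import Pool.Agent.Lib.MP_ccf8bc_lc.BC.Part

/-!
Local form of the class with amalgamation in strong limit cardinals: failure in `2 ^ 2 ^ l` as
long as no measurable cardinal lies in the interval from `θ` to `l`.
-/

namespace Pool.Agent.Lib.MP_ccf8bc_lc.Loc

open Cardinal NM

universe u

theorem measurable_le {I α : Type u} [Infinite I] (U : Ultrafilter α)
    (hnp : ∀ a, {a} ∉ U) (hc : ∀ Y : I → Set α, (∀ i, Y i ∈ U) → ⋂ i, Y i ∈ U) :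
    ∃ κ, #I < κ ∧ κ ≤ #α ∧ Measurable' κ := by
  have hmem : #(Set.range fun a : α => ({a}ᶜ : Set α)) ∈ {c : Cardinal.{u} |
      ∃ S : Set (Set α), #S = c ∧ (∀ s ∈ S, s ∈ U) ∧ ⋂₀ S ∉ U} := by
    refine ⟨Set.range fun a : α => ({a}ᶜ : Set α), rfl, ?_, fun h => ?_⟩
    · rintro _ ⟨a, rfl⟩
      exact Ultrafilter.compl_mem_iff_notMem.2 (hnp a)
    · obtain ⟨a, ha⟩ := Ultrafilter.nonempty_of_mem h
      exact ha _ ⟨a, rfl⟩ rfl
  have hle := (csInf_le' hmem).trans Cardinal.mk_range_le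
  obtain ⟨S, h1, h2, h3⟩ := csInf_mem ⟨_, hmem⟩
  have hmin : ∀ T : Set (Set α), #T < #S → (∀ s ∈ T, s ∈ U) → ⋂₀ T ∈ U := fun T a b => by
    by_contra c
    exact a.not_ge (h1.trans_le (csInf_le' ⟨T, rfl, b, c⟩))
  have hS : Nonempty S := by
    rcases S.eq_empty_or_nonempty with rfl | h
    · exact absurd (by rw [Set.sInter_empty]; exact Filter.univ_mem) h3
    · exact h.to_subtype
  have hI : #I < #S := by
    by_contra h
    obtain ⟨g⟩ := (le_def _ _).1 (not_lt.1 h)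
    refine h3 (Filter.mem_of_superset
      (hc (fun i => (Function.invFun g i).1) fun i => h2 _ (Function.invFun g i).2)
      fun x hx s hs => ?_)
    obtain ⟨i, hi⟩ := Function.invFun_surjective g.injective ⟨s, hs⟩
    have h4 := Set.mem_iInter.1 hx i
    rwa [hi] at h4
  refine ⟨#S, hI, h1.trans_le hle, (aleph0_le_mk I).trans_lt hI, S,
    U.map fun x => Classical.epsilon fun s : S => x ∉ s.1, rfl, fun s hs => ?_, fun T a b => ?_⟩
  · refine h3 (Filter.mem_of_superset (Filter.inter_mem (Ultrafilter.mem_map.1 hs) (h2 _ s.2))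
      fun x hx t ht => ?_)
    by_contra h
    have h4 := Classical.epsilon_spec (p := fun s : S => x ∉ s.1) ⟨⟨t, ht⟩, h⟩
    have h5 : (Classical.epsilon fun s : S => x ∉ s.1) = s := hx.1
    rw [h5] at h4
    exact h4 hx.2
  · refine Ultrafilter.mem_map.2 (Filter.mem_of_superset
      (hmin (Set.preimage (fun x => Classical.epsilon fun s : S => x ∉ s.1) '' T)
        (mk_image_le.trans_lt a) ?_) fun x hx t ht => hx _ ⟨t, ht, rfl⟩)
    rintro _ ⟨t, ht, rfl⟩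
    exact Ultrafilter.mem_map.1 (b t ht)

theorem not_apd_loc {I : Type u} [Infinite I] (B₀ : Type u) [Nonempty B₀]
    (hU : ∀ κ, #I < κ → κ ≤ #B₀ → ¬ Measurable' κ) :
    ¬ Dat.APD I #(A0 I B₀ ⊕ (A0 I B₀ → A0 I B₀)) := by
  intro h
  obtain ⟨X, hX, hK, hS, hF⟩ := exists_full I B₀
  obtain ⟨X₁, s₁, p₁, c₁⟩ := exists_pt X hX hK hS True
  obtain ⟨X₂, s₂, p₂, c₂⟩ := exists_pt X hX hK hS False
  have : Infinite (A0 I B₀) := Infinite.of_injective
    (fun (s : List I) (_ : B₀) (s' : List I) => s' = s) fun s s' h =>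
      (congrFun (congrFun h (Classical.arbitrary B₀)) s).mp rfl
  have hc : #(Option (A0 I B₀ ⊕ (A0 I B₀ → A0 I B₀))) = #(A0 I B₀ ⊕ (A0 I B₀ → A0 I B₀)) := by
    rw [Cardinal.mk_option, Cardinal.add_one_eq (Cardinal.aleph0_le_mk _)]
  obtain ⟨N, Y, f₁, f₂, -, u₁, u₂, -⟩ := h _ _ _ X X₁ X₂ some some s₁ s₂ rfl hc hc
  rcases u₁.cod.2.2 with ⟨σ, hσ⟩ | hY
  · have s := s₁.comp u₁
    obtain ⟨U, h1, h2⟩ := sound (hF.map s.emb) (by
      rintro _ (⟨a, rfl⟩ | ⟨a, rfl⟩) _ (⟨b, rfl⟩ | ⟨b, rfl⟩) <;>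
        exact s.good _ _ (hK _ _) (hK _ _) (hK _ _)) σ hσ
    obtain ⟨κ, h3, h4, h5⟩ := measurable_le U h1 h2
    exact hU κ h3 h4 h5
  · have e := (hY (f₁ none) (f₂ none)).k0.2.2.2.2.2 ((u₁.emb.R _ _ _).2 p₁) ((u₂.emb.R _ _ _).2 p₂)
    have := (u₁.emb.R .Col none none).2 (c₁.2 trivial)
    rw [e] at this
    exact c₂.1 ((u₂.emb.R _ _ _).1 this)

theorem local_example (θ : Cardinal.{u}) (hθ : ℵ₀ ≤ θ) :
    ∃ (L : FirstOrder.Language.{u, u}) (K : AEC L), K.LS ≤ θ ∧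
      (∀ ν, θ < ν → Cardinal.IsStrongLimit ν → K.AP ν) ∧
      ∀ l, θ ≤ l → (∀ κ, θ < κ → κ ≤ l → ¬ Measurable' κ) →
        ¬ K.AP (2 ^ (2 ^ l : Cardinal.{u})) := by
  obtain ⟨I, rfl⟩ : ∃ I : Type u, #I = θ := ⟨θ.out, Cardinal.mk_out θ⟩
  have : Infinite I := Cardinal.infinite_iff.2 hθ
  obtain ⟨L, K, hLS, hK⟩ := exists_AEC I
  refine ⟨L, K, hLS, fun ν h1 h2 => (hK ν).2 (apd h2 h1), fun l hl hU => ?_⟩
  obtain ⟨B₀, rfl⟩ : ∃ B₀ : Type u, #B₀ = l := ⟨l.out, Cardinal.mk_out l⟩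
  have hB : ℵ₀ ≤ #B₀ := hθ.trans hl
  have : Infinite B₀ := Cardinal.infinite_iff.2 hB
  have hA : #(A0 I B₀) = 2 ^ #B₀ := by
    simp only [A0, Cardinal.mk_pi, Cardinal.prod_const, Cardinal.mk_Prop, Cardinal.lift_id,
      Cardinal.mk_list_eq_mk, Cardinal.lift_uzero, Cardinal.lift_ofNat]
    rw [← Cardinal.power_mul, Cardinal.mul_eq_right hB hl (Cardinal.mk_ne_zero I)]
  have h2 : ℵ₀ ≤ (2 ^ #B₀ : Cardinal.{u}) := hB.trans (Cardinal.cantor _).le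
  have hc : #(A0 I B₀ ⊕ (A0 I B₀ → A0 I B₀)) = 2 ^ (2 ^ #B₀ : Cardinal.{u}) := by
    rw [Cardinal.mk_sum, Cardinal.lift_id, Cardinal.lift_id, ← Cardinal.power_def (A0 I B₀), hA,
      Cardinal.power_self_eq h2,
      Cardinal.add_eq_right (h2.trans (Cardinal.cantor _).le) (Cardinal.cantor _).le]
  rw [hK, ← hc]
  exact not_apd_loc B₀ hU

theorem wc_of_measurable {κ : Cardinal.{u}} (h : Measurable' κ) : BC.WeaklyCompact κ := by
  obtain ⟨h0, α, U, hα, hnp, hU⟩ := h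
  refine ⟨h0, fun β hβ A _ => ?_⟩
  obtain ⟨e⟩ : Nonempty (α ≃ β) := Cardinal.eq.1 (hα.trans hβ.symm)
  refine ⟨(U.map e : Ultrafilter β), inferInstance, fun b => ?_, fun S hS hS' => ?_,
    fun s _ => (U.map e).mem_or_compl_mem s⟩
  · refine Ultrafilter.compl_mem_iff_notMem.2 fun hb => hnp (e.symm b) ?_
    exact Filter.mem_of_superset (Ultrafilter.mem_map.1 hb) fun x hx => (Equiv.eq_symm_apply e).2 hx
  · refine Ultrafilter.mem_map.2 (Filter.mem_of_superset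
      (hU (Set.preimage e '' S) (mk_image_le.trans_lt hS) ?_) fun x hx t ht => hx _ ⟨t, ht, rfl⟩)
    rintro _ ⟨t, ht, rfl⟩
    exact Ultrafilter.mem_map.1 (hS' t ht)

theorem strongLimit_between {κ l : Cardinal.{u}} (h : κ.IsInaccessible) (hl : l < κ) :
    ∃ ν, l < ν ∧ ν < κ ∧ ν.IsStrongLimit := by
  let f : ℕ → Cardinal.{u} := fun n => Nat.rec l (fun _ c => 2 ^ c) n
  have hf : ∀ n, f n < κ := fun n => by
    induction n with
    | zero => exact hl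
    | succ n ih => exact h.isStrongPrelimit ih
  have hb : BddAbove (Set.range f) := ⟨κ, by rintro _ ⟨n, rfl⟩; exact (hf n).le⟩
  have hs : ∀ n, f n < iSup f := fun n => (Cardinal.cantor (f n)).trans_le (le_ciSup hb (n + 1))
  refine ⟨iSup f, hs 0, Cardinal.lift_iSup_lt_of_lt_cof_ord (by simpa using h.aleph0_lt.trans_le h.le_cof_ord) hf,
    (zero_le.trans_lt (hs 0)).ne', fun x hx => ?_⟩
  obtain ⟨n, hn⟩ := exists_lt_of_lt_ciSup hx
  exact (Cardinal.power_le_power_left two_ne_zero hn.le).trans_lt (hs (n + 1))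

end Pool.Agent.Lib.MP_ccf8bc_lc.Loc
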